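import Pool.Agent.H45.HC2

open MeasureTheory ProbabilityTheory Pool.Agent.H45.Kolm

theorem Pool.Agent.Results.MP_38bc51_pr.Above.result :
    ∃ μ : Measure (ℤ → Bool), IsProbabilityMeasure μ ∧
      μ.map (fun x i => x (i + 1)) = μ ∧
      (∀ᵐ x ∂μ, ∀ i, ¬(x i = true ∧ x (i + 1) = true)) ∧
      (∀ A B : Set ℤ, (∀ a ∈ A, ∀ b ∈ B, 2 < |a - b|) →
        IndepFun (fun (x : ℤ → Bool) (i : A) => x i) (fun (x : ℤ → Bool) (i : B) => x i) μ) ∧
      μ {x | x 0 = true} = ENNReal.ofReal (71 / 200) := by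
  obtain ⟨μ, hμ, h⟩ := P_cons.exists_measure true
  refine ⟨μ, hμ, stationary true h, ae_all_iff.2 fun i => ?_,
    P_cons.indep true h (path_ind2' P_cons P_two true), ?_⟩
  · have : {x : ℤ → Bool | ¬¬(x i = true ∧ x (i + 1) = true)} =
        win i 2 ⁻¹' {y | y 0 = true ∧ y 1 = true} := by ext x; simp [win]
    rw [ae_iff, this, ← Measure.map_apply (meas_win _ _) .of_discrete, h, P_cons.nu_apply]
    simp [sum_cons, Set.indicator_apply, P, ev, step]
  · have : {x : ℤ → Bool | x 0 = true} = win 0 1 ⁻¹' {y | y 0 = true} := by ext x; simp [win]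
    rw [this, ← Measure.map_apply (meas_win _ _) .of_discrete, h, P_cons.nu_apply]
    simp [sum_cons, Set.indicator_apply, P, ev, step]
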